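import Pool.Agent.Helper57.REC.Stmts6b
import Pool.Agent.Helper85.REC.LIN0

/-!
# REC, EDT: a place at which the products determine the exponents
-/

set_option autoImplicit false

open scoped Classical
open NumberField Polynomial

namespace REC

open Pool.Agent.Helper13.ZL (Pl q)
open MU

/-- integral elements have norm at most one -/
theorem edt_le {F : Type} [Field F] [NumberField F] {l : ℕ} [Fact l.Prime] (a : F →+* ℚ_[l])
    (x : 𝓞 F) : ∃ r : ℤ_[l], (r : ℚ_[l]) = a (x : F) := by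
  have hint : IsIntegral ℤ_[l] (a (x : F)) := by
    have h5 : IsIntegral ℤ (a (x : F)) := map_isIntegral_int a (RingOfIntegers.isIntegral_coe x)
    exact h5.tower_top
  obtain ⟨r, hr⟩ := (IsIntegrallyClosed.isIntegral_iff (R := ℤ_[l]) (K := ℚ_[l])).mp hint
  exact ⟨r, hr⟩

theorem edt_norm {F : Type} [Field F] [NumberField F] {l : ℕ} [Fact l.Prime] (a : F →+* ℚ_[l])
    (x : 𝓞 F) : ‖a (x : F)‖ ≤ 1 := by
  obtain ⟨r, hr⟩ := edt_le a x
  rw [← hr]
  exact PadicInt.norm_le_one r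

/-- the place of `F` given by an embedding in `ℚ_l` -/
theorem edt_place {F : Type} [Field F] [NumberField F] {l : ℕ} [Fact l.Prime]
    (a : F →+* ℚ_[l]) : ∃ v : Pl F, ∀ x : 𝓞 F, x ∈ v.asIdeal ↔ ‖a (x : F)‖ < 1 := by
  let I : Ideal (𝓞 F) :=
    { carrier := {x | ‖a (x : F)‖ < 1}
      add_mem' := by
        intro x y hx hy
        have h1 : a ((x + y : 𝓞 F) : F) = a (x : F) + a (y : F) := by
          rw [← map_add]
          rfl
        change ‖a ((x + y : 𝓞 F) : F)‖ < 1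
        rw [h1]
        exact lt_of_le_of_lt (Padic.nonarchimedean _ _) (max_lt hx hy)
      zero_mem' := by
        change ‖a ((0 : 𝓞 F) : F)‖ < 1
        have h1 : ((0 : 𝓞 F) : F) = 0 := rfl
        rw [h1, map_zero, norm_zero]
        exact one_pos
      smul_mem' := by
        intro c x hx
        have h1 : a ((c • x : 𝓞 F) : F) = a (c : F) * a (x : F) := by
          rw [← map_mul]
          rfl
        change ‖a ((c • x : 𝓞 F) : F)‖ < 1
        rw [h1, norm_mul]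
        have h2 := edt_norm a c
        have h3 : ‖a (x : F)‖ < 1 := hx
        exact lt_of_le_of_lt (mul_le_of_le_one_left (norm_nonneg _) h2) h3 }
  have hI : ∀ x : 𝓞 F, x ∈ I ↔ ‖a (x : F)‖ < 1 := fun x => Iff.rfl
  have hprime : I.IsPrime := by
    refine Ideal.isPrime_iff.mpr ⟨?_, ?_⟩
    · rw [Ideal.ne_top_iff_one, hI]
      have h1 : ((1 : 𝓞 F) : F) = 1 := rfl
      rw [h1, map_one, norm_one]
      exact lt_irrefl _
    · intro x y hxy
      rw [hI] at hxy
      have h1 : a ((x * y : 𝓞 F) : F) = a (x : F) * a (y : F) := by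
        rw [← map_mul]
        rfl
      rw [h1, norm_mul] at hxy
      rw [hI, hI]
      by_contra hne
      push Not at hne
      have h2 : ‖a (x : F)‖ = 1 := le_antisymm (edt_norm a x) hne.1
      have h3 : ‖a (y : F)‖ = 1 := le_antisymm (edt_norm a y) hne.2
      rw [h2, h3, mul_one] at hxy
      exact lt_irrefl _ hxy
  have hne : I ≠ ⊥ := by
    intro h0
    have h1 : ((l : 𝓞 F)) ∈ I := by
      rw [hI]
      have h2 : ((l : 𝓞 F) : F) = (l : F) := map_natCast (algebraMap (𝓞 F) F) l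
      rw [h2, map_natCast]
      exact Padic.norm_p_lt_one
    rw [h0, Ideal.mem_bot] at h1
    exact (Fact.out : l.Prime).ne_zero (Nat.cast_eq_zero.mp h1)
  exact ⟨⟨I, hprime, hne⟩, hI⟩

/-- the exponent of `v` in `s` -/
theorem edt_factor {F : Type} [Field F] [NumberField F] (v : Pl F) (M : ℕ) (π : 𝓞 F)
    (hπ : Ideal.span {π} = v.asIdeal ^ M) (s : 𝓞 F) (hs : s ≠ 0) :
    ∃ (k : ℕ) (w : 𝓞 F), s ^ M = π ^ k * w ∧ w ∉ v.asIdeal ∧ (s ∈ v.asIdeal → 0 < k) := by
  have hv : v.asIdeal.IsPrime := v.isPrime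
  have hu : ¬ IsUnit v.asIdeal := by
    rw [Ideal.isUnit_iff]
    exact hv.ne_top
  have hs0 : Ideal.span {s} ≠ 0 := by
    rw [Ne, Submodule.zero_eq_bot, Ideal.span_singleton_eq_bot]
    exact hs
  have hf : FiniteMultiplicity v.asIdeal (Ideal.span {s}) := FiniteMultiplicity.of_not_isUnit hu hs0
  obtain ⟨J, hJ, hJv⟩ := hf.exists_eq_pow_mul_and_not_dvd
  generalize multiplicity v.asIdeal (Ideal.span {s}) = k at hJ
  have h1 : Ideal.span {s ^ M} = Ideal.span {π ^ k} * J ^ M := by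
    have e1 : Ideal.span {s ^ M} = Ideal.span {s} ^ M := (Ideal.span_singleton_pow s M).symm
    have e2 : Ideal.span {π ^ k} = Ideal.span {π} ^ k := (Ideal.span_singleton_pow π k).symm
    have e3 : (v.asIdeal ^ k) ^ M = (v.asIdeal ^ M) ^ k := by
      rw [← pow_mul, ← pow_mul, Nat.mul_comm]
    rw [e1, e2, hπ, hJ, mul_pow, e3]
  have h2 : s ^ M ∈ Ideal.span {π ^ k} := by
    have h3 : s ^ M ∈ Ideal.span {s ^ M} := Ideal.mem_span_singleton_self _
    rw [h1] at h3
    exact (Ideal.mul_le_left : Ideal.span {π ^ k} * J ^ M ≤ Ideal.span {π ^ k}) h3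
  obtain ⟨w, hw⟩ := Ideal.mem_span_singleton'.mp h2
  have hπ0 : Ideal.span {π ^ k} ≠ 0 := by
    intro h0
    have h3 : Ideal.span {s ^ M} = 0 := by rw [h1, h0, zero_mul]
    have h4 : s ^ M = 0 := Ideal.span_singleton_eq_bot.mp h3
    exact hs (eq_zero_of_pow_eq_zero h4)
  have h4 : Ideal.span {w} = J ^ M := by
    have h5 : Ideal.span {π ^ k} * Ideal.span {w} = Ideal.span {π ^ k} * J ^ M := by
      rw [Ideal.span_singleton_mul_span_singleton, mul_comm (π ^ k) w, hw, h1]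
    exact mul_left_cancel₀ hπ0 h5
  refine ⟨k, w, by rw [← hw, mul_comm], ?_, ?_⟩
  · intro hwv
    have h6 : v.asIdeal ∣ J ^ M := by
      rw [← h4, Ideal.dvd_span_singleton]
      exact hwv
    exact hJv (v.prime.dvd_of_dvd_pow h6)
  · intro hsv
    have h7 : v.asIdeal ∣ Ideal.span {s} := by
      rw [Ideal.dvd_span_singleton]
      exact hsv
    rcases Nat.eq_zero_or_pos k with h0 | h0
    · exfalso
      rw [h0, pow_zero, one_mul] at hJ
      rw [hJ] at h7
      exact hJv h7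
    · exact h0

/-- the embedding in `ℚ_l` is determined by its place -/
theorem edt_eq {F : Type} [Field F] [NumberField F] {l : ℕ} [Fact l.Prime] (a b : F →+* ℚ_[l])
    (v : Pl F) (ha : ∀ x : 𝓞 F, x ∈ v.asIdeal ↔ ‖a (x : F)‖ < 1)
    (hb : ∀ x : 𝓞 F, x ∈ v.asIdeal ↔ ‖b (x : F)‖ < 1) : a = b := by
  obtain ⟨M, hM, hgen⟩ := lin_gen F
  obtain ⟨π, -, hπ⟩ := hgen v
  have key : ∀ c : F →+* ℚ_[l], (∀ x : 𝓞 F, x ∈ v.asIdeal ↔ ‖c (x : F)‖ < 1) →
      ∀ (s : 𝓞 F) (k : ℕ) (w : 𝓞 F), s ^ M = π ^ k * w → w ∉ v.asIdeal →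
        ‖c (s : F)‖ ^ M = ‖c (π : F)‖ ^ k := by
    intro c hc s k w h1 h2
    have h3 : ‖c (w : F)‖ = 1 := by
      refine le_antisymm (edt_norm c w) ?_
      by_contra h4
      push Not at h4
      exact h2 ((hc w).mpr h4)
    have h4 : ((s ^ M : 𝓞 F) : F) = (s : F) ^ M := rfl
    have h5 : ((π ^ k * w : 𝓞 F) : F) = (π : F) ^ k * (w : F) := rfl
    have h6 : (s : F) ^ M = (π : F) ^ k * (w : F) := by
      rw [← h4, ← h5, h1]
    have h7 := congrArg (fun t => ‖c t‖) h6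
    simp only [map_pow, map_mul, norm_pow, norm_mul] at h7
    rw [h7, h3, mul_one]
  -- the norms of the generator agree
  have hl0 : ((l : 𝓞 F)) ≠ 0 := Nat.cast_ne_zero.mpr (Fact.out : l.Prime).ne_zero
  have hlF : ((l : 𝓞 F) : F) = (l : F) := map_natCast (algebraMap (𝓞 F) F) l
  have hlv : (l : 𝓞 F) ∈ v.asIdeal := by
    rw [ha, hlF, map_natCast]
    exact Padic.norm_p_lt_one
  have hπn : ‖a (π : F)‖ = ‖b (π : F)‖ := by
    obtain ⟨k, w, h1, h2, h3⟩ := edt_factor v M π hπ (l : 𝓞 F) hl0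
    have h4 := key a ha _ k w h1 h2
    have h5 := key b hb _ k w h1 h2
    rw [hlF, map_natCast] at h4 h5
    have h6 : ‖a (π : F)‖ ^ k = ‖b (π : F)‖ ^ k := by rw [← h4, ← h5]
    exact (pow_left_inj₀ (norm_nonneg _) (norm_nonneg _) (h3 hlv).ne').mp h6
  have hn : ∀ s : 𝓞 F, ‖a (s : F)‖ = ‖b (s : F)‖ := by
    intro s
    by_cases hs : s = 0
    · have h0 : ((0 : 𝓞 F) : F) = 0 := rfl
      rw [hs, h0, map_zero, map_zero]
    · obtain ⟨k, w, h1, h2, -⟩ := edt_factor v M π hπ s hs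
      have h4 := key a ha _ k w h1 h2
      have h5 := key b hb _ k w h1 h2
      have h6 : ‖a (s : F)‖ ^ M = ‖b (s : F)‖ ^ M := by rw [h4, h5, hπn]
      exact (pow_left_inj₀ (norm_nonneg _) (norm_nonneg _) hM.ne').mp h6
  -- equality on the integers
  have hint : ∀ t : 𝓞 F, a (t : F) = b (t : F) := by
    intro t
    by_contra hne
    have hpos : 0 < ‖a (t : F) - b (t : F)‖ := norm_pos_iff.mpr (sub_ne_zero.mpr hne)
    obtain ⟨r, hr⟩ := edt_le a t
    have hl1 : 1 < (l : ℝ) := Nat.one_lt_cast.mpr (Fact.out : l.Prime).one_lt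
    obtain ⟨n, hnn⟩ := exists_pow_lt_of_lt_one hpos (inv_lt_one_of_one_lt₀ hl1)
    have h1 : ‖r - (r.appr n : ℤ_[l])‖ ≤ (l : ℝ) ^ (-(n : ℤ)) :=
      (PadicInt.norm_le_pow_iff_mem_span_pow _ n).mpr (PadicInt.appr_spec n r)
    have h2 : ‖a (t : F) - (r.appr n : ℚ_[l])‖ ≤ (l : ℝ) ^ (-(n : ℤ)) := by
      rw [← hr]
      have h3 : ((r - (r.appr n : ℤ_[l]) : ℤ_[l]) : ℚ_[l]) = (r : ℚ_[l]) - (r.appr n : ℚ_[l]) := by
        rw [PadicInt.coe_sub, PadicInt.coe_natCast]
      rw [← h3, ← PadicInt.norm_def]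
      exact h1
    have h4 : ((t - (r.appr n : 𝓞 F) : 𝓞 F) : F) = (t : F) - (r.appr n : F) := by
      have h9 := map_sub (algebraMap (𝓞 F) F) t (r.appr n : 𝓞 F)
      rw [map_natCast] at h9
      exact h9
    have h5 := hn (t - (r.appr n : 𝓞 F))
    rw [h4, map_sub, map_sub, map_natCast, map_natCast] at h5
    have h6 : ‖a (t : F) - b (t : F)‖ ≤ (l : ℝ) ^ (-(n : ℤ)) := by
      have h7 : a (t : F) - b (t : F) =
          (a (t : F) - (r.appr n : ℚ_[l])) + -(b (t : F) - (r.appr n : ℚ_[l])) := by ring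
      rw [h7]
      refine le_trans (Padic.nonarchimedean _ _) (max_le h2 ?_)
      rw [norm_neg, ← h5]
      exact h2
    have h8 : (l : ℝ) ^ (-(n : ℤ)) = ((l : ℝ)⁻¹) ^ n := by
      rw [zpow_neg, zpow_natCast, inv_pow]
    rw [h8] at h6
    exact absurd (lt_of_le_of_lt h6 hnn) (lt_irrefl _)
  refine RingHom.ext fun y => ?_
  obtain ⟨n, d, hd, rfl⟩ := IsFractionRing.div_surjective (A := 𝓞 F) y
  rw [map_div₀, map_div₀]
  have h1 := hint n
  have h2 := hint d
  rw [h1, h2]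

/-- the norm at the other embeddings is one -/
theorem edt_other {F : Type} [Field F] [NumberField F] {l : ℕ} [Fact l.Prime]
    (a b : F →+* ℚ_[l]) (v : Pl F) (ha : ∀ x : 𝓞 F, x ∈ v.asIdeal ↔ ‖a (x : F)‖ < 1)
    (hab : b ≠ a) (m : ℕ) (x : 𝓞 F) (hx : Ideal.span {x} = v.asIdeal ^ m) :
    ‖b (x : F)‖ = 1 := by
  refine le_antisymm (edt_norm b x) ?_
  obtain ⟨v', hv'⟩ := edt_place b
  have hne : ¬ v.asIdeal ≤ v'.asIdeal := by
    intro hle
    have h1 : v.asIdeal = v'.asIdeal :=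
      v.isMaximal.eq_of_le v'.isPrime.ne_top hle
    refine hab (edt_eq a b v ha ?_).symm
    intro y
    rw [h1]
    exact hv' y
  obtain ⟨y, hy, hy'⟩ := Set.not_subset.mp hne
  have h1 : ‖b (y : F)‖ = 1 := by
    refine le_antisymm (edt_norm b y) ?_
    by_contra h2
    push Not at h2
    exact hy' ((hv' y).mpr h2)
  have h2 : y ^ m ∈ Ideal.span {x} := by
    rw [hx]
    exact Ideal.pow_mem_pow hy m
  obtain ⟨z, hz⟩ := Ideal.mem_span_singleton'.mp h2
  have h3 : (y : F) ^ m = (z : F) * (x : F) := by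
    have h4 : ((y ^ m : 𝓞 F) : F) = (y : F) ^ m := rfl
    have h5 : ((z * x : 𝓞 F) : F) = (z : F) * (x : F) := rfl
    rw [← h4, ← h5, hz]
  have h4 := congrArg (fun t => ‖b t‖) h3
  simp only [map_pow, map_mul, norm_pow, norm_mul] at h4
  rw [h1, one_pow] at h4
  rw [h4]
  exact mul_le_of_le_one_left (norm_nonneg _) (edt_norm b z)

/-- the embeddings are conjugate -/
theorem edt_conj {F L : Type} [Field F] [NumberField F] [Field L] [NumberField L]
    [IsGalois ℚ L] (σ τ : F →+* L) : ∃ γ : L →+* L, γ.comp σ = τ := by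
  let _ : Algebra F L := σ.toAlgebra
  have hst : IsScalarTower ℚ F L := by
    refine IsScalarTower.of_algebraMap_eq fun x => ?_
    exact (RingHom.congr_fun (Subsingleton.elim (algebraMap ℚ L)
      ((algebraMap F L).comp (algebraMap ℚ F))) x)
  let τ' : F →ₐ[ℚ] L := ⟨τ, fun r => RingHom.congr_fun (Subsingleton.elim
    (τ.comp (algebraMap ℚ F)) (algebraMap ℚ L)) r⟩
  refine ⟨(τ'.liftNormal L : L →ₐ[ℚ] L).toRingHom, RingHom.ext fun x => ?_⟩
  have h := τ'.liftNormal_commutes L x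
  exact h

theorem st_EDT (hSPQ : ST_SPQ) : ST_EDT := by
  intro F L _ _ _ _ _ _ S
  obtain ⟨l, hl, hlS, ⟨ι⟩⟩ := hSPQ L (S.sup id)
  obtain ⟨τ₀⟩ := (inferInstance : Nonempty (F →+* L))
  obtain ⟨v, hv⟩ := edt_place (ι.comp τ₀)
  refine ⟨v, l, hl.out, fun hmem => ?_, ?_, ?_⟩
  · have h1 : l ≤ S.sup id := Finset.le_sup (f := id) hmem
    omega
  · rw [hv]
    have h2 : ((l : 𝓞 F) : F) = (l : F) := map_natCast (algebraMap (𝓞 F) F) l
    rw [h2, map_natCast]
    exact Padic.norm_p_lt_one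
  · intro m x hm hx e e' hee
    funext σ
    obtain ⟨γ, hγ⟩ := edt_conj σ τ₀
    have hx0 : x ≠ 0 := by
      rintro rfl
      rw [Ideal.span_singleton_eq_bot.mpr rfl] at hx
      exact v.ne_bot (pow_eq_zero_iff hm.ne' |>.mp hx.symm)
    have hxv : x ∈ v.asIdeal := by
      have h1 : x ∈ Ideal.span {x} := Ideal.mem_span_singleton_self x
      rw [hx] at h1
      exact Ideal.pow_le_self hm.ne' h1
    have hlt : ‖(ι.comp τ₀) (x : F)‖ < 1 := (hv x).mp hxv
    have hpos : 0 < ‖(ι.comp τ₀) (x : F)‖ := by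
      rw [norm_pos_iff]
      intro h0
      exact hx0 (RingOfIntegers.ext ((map_eq_zero (ι.comp τ₀)).mp h0))
    have hval : ∀ f : (F →+* L) → ℕ,
        ‖ι (γ ((∏ τ : F →+* L, RingOfIntegers.mapRingHom τ x ^ f τ : 𝓞 L) : L))‖ =
          ‖(ι.comp τ₀) (x : F)‖ ^ f σ := by
      intro f
      have h1 : ((∏ τ : F →+* L, RingOfIntegers.mapRingHom τ x ^ f τ : 𝓞 L) : L) =
          ∏ τ : F →+* L, τ (x : F) ^ f τ :=
        map_prod (algebraMap (𝓞 L) L) (fun τ : F →+* L => RingOfIntegers.mapRingHom τ x ^ f τ)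
          Finset.univ
      rw [h1, map_prod, map_prod, norm_prod]
      rw [Finset.prod_eq_single σ]
      · rw [map_pow, map_pow, norm_pow]
        have h2 : γ (σ (x : F)) = τ₀ (x : F) := RingHom.congr_fun hγ (x : F)
        rw [h2]
        rfl
      · intro τ _ hτ
        have h2 : (ι.comp (γ.comp τ)) ≠ ι.comp τ₀ := by
          intro h3
          refine hτ (RingHom.ext fun y => ?_)
          have h4 := RingHom.congr_fun h3 y
          have h5 : γ (τ y) = τ₀ y := ι.injective h4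
          have h6 : γ (σ y) = τ₀ y := RingHom.congr_fun hγ y
          exact γ.injective (by rw [h5, h6])
        have h3 := edt_other (ι.comp τ₀) (ι.comp (γ.comp τ)) v hv h2 m x hx
        rw [map_pow, map_pow, norm_pow]
        have h4 : ‖ι (γ (τ (x : F)))‖ = 1 := h3
        rw [h4, one_pow]
      · intro h
        exact absurd (Finset.mem_univ σ) h
    have h1 := hval e
    rw [hee, hval e'] at h1
    exact (pow_right_injective₀ hpos hlt.ne h1).symm

end REC
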